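import Mathlib
import Pool.Agent.Lib.MP_6b6c7c_lc.Defs
import Pool.Agent.Lib.MP_6b6c7c_lc.Main

open Pool.Agent.Lib.MP_6b6c7c_lc

/-- There is a polynomial-time Turing complete set `A` for EXP that is not polynomial-time Turing
mitotic; moreover, whichever set `S` in P splits it, `A` is not polynomial-time Turing reducible to
one of the two parts `A ∩ S`, `A ∩ Sᶜ`. -/
theorem Pool.Agent.Results.MP_6b6c7c_lc.NonMitotic.result :
    ∃ A : Lang, TComplete A ∧ ¬ TMitotic A ∧
      ∀ S : Lang, InP S → ¬ TRed A (A ∩ S) ∨ ¬ TRed A (A ∩ Sᶜ) :=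
  ⟨theA, theA_complete, theA_not_mitotic, theA_split⟩
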